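import Pool.Agent.H1.SE.TarU

/-!
# MP_eaeaf5_lc, module UE: a bijection of `ω` onto `hf` in all models of `ZFm`
-/

set_option linter.unusedVariables false

open Ordinal Order Set
open scoped ZFSet

namespace SE

open SF PSR

namespace H60

theorem ue_nS_mem {m n : ℕ} : nS m ∈ nS n ↔ m < n := by
  unfold nS
  rw [Ordinal.toZFSet_mem_toZFSet_iff]
  exact Nat.cast_lt

theorem ue_mem_nS {n : ℕ} {x : V} : x ∈ nS n ↔ ∃ j < n, x = nS j := by
  constructor
  · intro h
    obtain ⟨a, ha, rfl⟩ := Ordinal.mem_toZFSet_iff.1 h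
    obtain ⟨j, rfl⟩ := Ordinal.lt_omega0.1 (ha.trans (Ordinal.natCast_lt_omega0 n))
    exact ⟨j, by exact_mod_cast ha, rfl⟩
  · rintro ⟨j, hj, rfl⟩
    exact ue_nS_mem.2 hj

/-- the indices of the first occurrences -/
noncomputable def ueS (f : V) : V := om.sep fun m => ∀ k ∈ m, app f k ≠ app f m

/-- the bijection -/
noncomputable def ueE (S f : V) : V := imS S fun m => ZFSet.pair (CAA.clp S m) (app f m)

theorem ue_tmS : Tm ZFm (fun _ v => ueS (v 0)) := by
  refine (Tm.sep (R := fun _ v => ∀ k ∈ v 0, SF.app (v 1) k ≠ SF.app (v 1) (v 0)) ?_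
    Tm.om).congr fun M k v hv => rfl
  exact (Dfb.ball (R := fun _ v => SF.app (v 2) (v 0) ≠ SF.app (v 2) (v 1)) ktr_zfm (Tm.var 0)
    (Dfb.eq (Tm.app (Tm.var 2) (Tm.var 0)) (Tm.app (Tm.var 2) (Tm.var 1))).not).congr
      fun M k v hv => Iff.rfl

theorem ue_tmE (hDJ : CAA.T_DJ) : Tm ZFm (fun _ v => ueE (v 0) (v 1)) :=
  (Tm.image (f := fun _ v => v 0)
    (g := fun _ v => ZFSet.pair (CAA.clp (v 1) (v 0)) (SF.app (v 2) (v 0))) (Tm.var 0)
    (Tm.pair (Tm.at2 (F := fun _ x y => CAA.clp x y) hDJ.2 (Tm.var 1) (Tm.var 0))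
      (Tm.app (Tm.var 2) (Tm.var 0)))).congr fun M k v hv => rfl

end H60

open H60 in
open Classical in
theorem pf_UE (hAA : T_AA) (hDJ : CAA.T_DJ) : T_UE := by
  intro M hM
  obtain ⟨-, hnS, -, -, -, -, hfin, -, hct⟩ := hAA
  obtain ⟨f, hMf, hf1, hf2⟩ : ∃ f, M f ∧ Onto f om hf := by
    rcases hct M hM with h | h
    · exfalso
      have := hnS 0
      rw [h] at this
      exact absurd this (by simp)
    · exact h
  set S := ueS f with hS
  set p : ℕ → Prop := fun j => nS j ∈ S with hp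
  have hpiff : ∀ j, p j ↔ ∀ k < j, app f (nS k) ≠ app f (nS j) := by
    intro j
    show nS j ∈ S ↔ _
    rw [hS]
    unfold ueS
    rw [ZFSet.mem_sep]
    constructor
    · rintro ⟨-, h⟩ k hk
      exact h _ (ue_nS_mem.2 hk)
    · intro h
      refine ⟨mem_om.2 ⟨j, rfl⟩, fun k hk => ?_⟩
      obtain ⟨i, hi, rfl⟩ := ue_mem_nS.1 hk
      exact h i hi
  have hleast : ∀ y ∈ hf, ∃ j, p j ∧ app f (nS j) = y := by
    intro y hy
    have hex : ∃ j : ℕ, app f (nS j) = y := by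
      obtain ⟨a, ha, hay⟩ := hf2 y hy
      obtain ⟨j, rfl⟩ := mem_om.1 ha
      exact ⟨j, app_eq (svl_of_isFunc hf1) hay⟩
    refine ⟨Nat.find hex, ?_, Nat.find_spec hex⟩
    rw [hpiff]
    intro k hk
    rw [Nat.find_spec hex]
    exact Nat.find_min hex hk
  have hinf : (Set.ofPred p).Infinite := by
    intro hfi
    obtain ⟨j, hj, hj2⟩ := hfin ((fun j => app f (nS j)) '' Set.ofPred p) (hfi.image _)
    apply hj2
    obtain ⟨i, hi, rfl⟩ := hleast j hj
    exact ⟨i, hi, rfl⟩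
  have hclp : ∀ n : ℕ, CAA.clp S (nS n) = nS (Nat.count p n) := by
    intro n
    induction n using Nat.strong_induction_on with
    | _ n ih =>
      ext y
      rw [hDJ.1, ue_mem_nS]
      constructor
      · rintro ⟨z, hz, hzS, rfl⟩
        obtain ⟨k, hk, rfl⟩ := ue_mem_nS.1 hz
        exact ⟨Nat.count p k, Nat.count_strict_mono hzS hk, ih k hk⟩
      · rintro ⟨j, hj, rfl⟩
        have h1 : Nat.nth p j < n := Nat.nth_lt_of_lt_count hj
        refine ⟨nS (Nat.nth p j), ue_nS_mem.2 h1, Nat.nth_mem_of_infinite hinf j, ?_⟩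
        rw [ih _ h1, Nat.count_nth_of_infinite hinf]
  have hpair : ∀ (n : ℕ) (y : V), ZFSet.pair (nS n) y ∈ ueE S f ↔
      y = app f (nS (Nat.nth p n)) := by
    intro n y
    unfold ueE
    rw [mem_imS]
    constructor
    · rintro ⟨m, hm, h⟩
      obtain ⟨h1, h2⟩ := ZFSet.pair_inj.1 h
      have hm2 : m ∈ om := (ZFSet.mem_sep.1 hm).1
      obtain ⟨k, rfl⟩ := mem_om.1 hm2
      rw [hclp, nS_inj] at h1
      rw [← h1, ← h2, Nat.nth_count (p := p) hm]
    · rintro rfl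
      refine ⟨nS (Nat.nth p n), Nat.nth_mem_of_infinite hinf n, ?_⟩
      rw [hclp, Nat.count_nth_of_infinite hinf]
  have hfn : ZFSet.IsFunc om hf (ueE S f) := by
    constructor
    · intro z hz
      unfold ueE at hz
      obtain ⟨m, hm, rfl⟩ := mem_imS.1 hz
      have hm2 : m ∈ om := (ZFSet.mem_sep.1 hm).1
      obtain ⟨k, rfl⟩ := mem_om.1 hm2
      rw [hclp]
      exact ZFSet.pair_mem_prod.2 ⟨mem_om.2 ⟨_, rfl⟩, app_mem hf1 (mem_om.2 ⟨k, rfl⟩)⟩
    · intro z hz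
      obtain ⟨n, rfl⟩ := mem_om.1 hz
      exact ⟨_, (hpair n _).2 rfl, fun y hy => (hpair n y).1 hy⟩
  have happ : ∀ n : ℕ, app (ueE S f) (nS n) = app f (nS (Nat.nth p n)) := fun n =>
    app_eq (svl_of_isFunc hfn) ((hpair n _).2 rfl)
  refine ⟨ueE S f, ?_, hfn, ?_, ?_⟩
  · have h1 : M S := ue_tmS.1 M hM (fun _ => f) (fun _ => hMf)
    exact (ue_tmE hDJ).1 M hM (fun i => if i = 0 then S else f) (fun i => by
      by_cases hi : i = 0
      · simp only [hi, if_true]; exact h1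
      · simp only [hi, if_false]; exact hMf)
  · intro m n h
    rw [happ, happ] at h
    have h1 := (hpiff _).1 (Nat.nth_mem_of_infinite hinf m)
    have h2 := (hpiff _).1 (Nat.nth_mem_of_infinite hinf n)
    rcases lt_trichotomy (Nat.nth p m) (Nat.nth p n) with h3 | h3 | h3
    · exact absurd h (h2 _ h3)
    · exact Nat.nth_injective hinf h3
    · exact absurd h.symm (h1 _ h3)
  · intro y hy
    obtain ⟨j, hj, hj2⟩ := hleast y hy
    exact ⟨Nat.count p j, by rw [happ, Nat.nth_count hj, hj2]⟩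

end SE
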