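import Pool.Agent.H1.SE.TarU

/-!
# MP_eaeaf5_lc, module UM: computable codes of universal open sets
-/

set_option linter.unusedVariables false

open Ordinal Order Set
open scoped ZFSet

namespace SE

open SF PSR

/-- the number `z` with the entry `((α, β), ξ)` replaced by `ξ` -/
def um_g (z : ℕ) : ℕ :=
  Nat.pair (Nat.pair (Nat.pair (Nat.pair
    z.unpair.1.unpair.1.unpair.1.unpair.1.unpair.2
    z.unpair.1.unpair.1.unpair.1.unpair.2)
    z.unpair.1.unpair.1.unpair.2) z.unpair.1.unpair.2) z.unpair.2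

/-- the entries `α`, `β` -/
def um_A (z : ℕ) : ℕ := z.unpair.1.unpair.1.unpair.1.unpair.1.unpair.1.unpair.1

/-- the entries `α`, `β` -/
def um_B (z : ℕ) : ℕ := z.unpair.1.unpair.1.unpair.1.unpair.1.unpair.1.unpair.2

lemma um_g_p5 (a b x y1 y2 y3 y4 : ℕ → ℕ) (i : ℕ) :
    um_g (p5 (pr (pr a b) x) y1 y2 y3 y4 i) = p5 x y1 y2 y3 y4 i := by
  simp [um_g, p5, pr]

lemma um_A_p5 (a b x y1 y2 y3 y4 : ℕ → ℕ) (i : ℕ) :
    um_A (p5 (pr (pr a b) x) y1 y2 y3 y4 i) = a i := by
  simp [um_A, p5, pr]

lemma um_B_p5 (a b x y1 y2 y3 y4 : ℕ → ℕ) (i : ℕ) :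
    um_B (p5 (pr (pr a b) x) y1 y2 y3 y4 i) = b i := by
  simp [um_B, p5, pr]

lemma um_fst : Primrec (fun z : ℕ => z.unpair.1) := Primrec.fst.comp Primrec.unpair

lemma um_snd : Primrec (fun z : ℕ => z.unpair.2) := Primrec.snd.comp Primrec.unpair

lemma um_g_prim : Primrec um_g := by
  have h1 : Primrec (fun z : ℕ => z.unpair.1.unpair.1) := um_fst.comp um_fst
  have h2 : Primrec (fun z : ℕ => z.unpair.1.unpair.1.unpair.1) := um_fst.comp h1
  have h3 : Primrec (fun z : ℕ => z.unpair.1.unpair.1.unpair.1.unpair.1) := um_fst.comp h2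
  exact Primrec₂.natPair.comp (Primrec₂.natPair.comp (Primrec₂.natPair.comp
    (Primrec₂.natPair.comp (um_snd.comp h3) (um_snd.comp h2)) (um_snd.comp h1))
    (um_snd.comp um_fst)) um_snd

lemma um_A_prim : Primrec um_A :=
  um_fst.comp (um_fst.comp (um_fst.comp (um_fst.comp (um_fst.comp um_fst))))

lemma um_B_prim : Primrec um_B :=
  um_snd.comp (um_fst.comp (um_fst.comp (um_fst.comp (um_fst.comp um_fst))))

/-- the number of the sequence `l.take k`, translated -/
def um_c (k : ℕ) (l : List ℕ) : ℕ := Encodable.encode ((l.take k).map um_g)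

lemma um_c_prim : Primrec₂ um_c := by
  unfold um_c
  refine Primrec.encode.comp (Primrec.list_map (Primrec.list_take.comp Primrec.fst Primrec.snd) ?_)
  exact um_g_prim.comp Primrec.snd

/-- the relation -/
def um_R (s : ℕ → ℕ) (k : ℕ) (l : List ℕ) : Prop :=
  um_c k l < l.length ∧ s (l.getD (um_c k l) 0) = 0

lemma um_R_prim {s : ℕ → ℕ} (hs : Primrec s) : PrimrecRel (um_R s) := by
  unfold um_R
  have h1 : Primrec (fun p : ℕ × List ℕ => um_c p.1 p.2) := um_c_prim
  have h2 : Primrec (fun p : ℕ × List ℕ => p.2.length) := Primrec.list_length.comp Primrec.snd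
  have h3 : Primrec (fun p : ℕ × List ℕ => s (p.2.getD (um_c p.1 p.2) 0)) :=
    hs.comp ((Primrec.list_getD 0).comp Primrec.snd h1)
  exact (Primrec.nat_lt.comp h1 h2).and (Primrec.eq.comp h3 (Primrec.const 0))

open Classical in
/-- the code -/
noncomputable def um_u (s : ℕ → ℕ) (n : ℕ) : ℕ :=
  if ∃ k < (Denumerable.ofNat (List ℕ) n).length + 1, um_R s k (Denumerable.ofNat (List ℕ) n)
  then 0 else 1

lemma um_u_comp {s : ℕ → ℕ} (hs : Primrec s) : Computable (um_u s) := by
  have h0 : Primrec (fun n : ℕ => Denumerable.ofNat (List ℕ) n) := Primrec.ofNat (List ℕ)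
  have h1 := (um_R_prim hs).exists_mem_list
  have h2 : PrimrecPred (fun n : ℕ => ∃ k < (Denumerable.ofNat (List ℕ) n).length + 1,
      um_R s k (Denumerable.ofNat (List ℕ) n)) := by
    refine (h1.comp (Primrec.list_range.comp
      (Primrec.succ.comp (Primrec.list_length.comp h0))) h0).of_eq fun n => ?_
    simp only [List.mem_range, Nat.succ_eq_add_one]
  classical
  have h3 := Primrec.ite h2 (Primrec.const 0) (Primrec.const 1)
  refine Primrec.to_comp (h3.of_eq fun n => ?_)
  unfold um_u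
  congr

lemma um_u_eq (s : ℕ → ℕ) (n : ℕ) : um_u s n = 0 ↔
    ∃ k < (Denumerable.ofNat (List ℕ) n).length + 1, um_R s k (Denumerable.ofNat (List ℕ) n) := by
  unfold um_u
  by_cases h : ∃ k < (Denumerable.ofNat (List ℕ) n).length + 1,
    um_R s k (Denumerable.ofNat (List ℕ) n)
  · rw [if_pos h]
    exact ⟨fun _ => h, fun _ => rfl⟩
  · rw [if_neg h]
    exact ⟨fun h1 => absurd h1 one_ne_zero, fun h1 => absurd h1 h⟩

lemma um_key (s a w w' : ℕ → ℕ) (hg : ∀ i, um_g (w' i) = w i) (hs : ∀ i, s (w' i) = a i) :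
    Op (um_u s) w' ↔ Op a w := by
  have hR : ∀ N k, k ≤ N → (um_R s k ((List.range N).map w') ↔
      Encodable.encode ((List.range k).map w) < N ∧
        a (Encodable.encode ((List.range k).map w)) = 0) := by
    intro N k hk
    have h1 : um_c k ((List.range N).map w') = Encodable.encode ((List.range k).map w) := by
      unfold um_c
      rw [← List.map_take, List.take_range, min_eq_left hk, List.map_map]
      congr 2
      funext i
      exact hg i
    unfold um_R
    rw [h1, List.length_map, List.length_range]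
    constructor
    · rintro ⟨h2, h3⟩
      refine ⟨h2, ?_⟩
      rw [List.getD_eq_getElem _ _ (by simpa using h2)] at h3
      rw [List.getElem_map, List.getElem_range, hs] at h3
      exact h3
    · rintro ⟨h2, h3⟩
      refine ⟨h2, ?_⟩
      rw [List.getD_eq_getElem _ _ (by simpa using h2)]
      rw [List.getElem_map, List.getElem_range, hs]
      exact h3
  have hof : ∀ N, Denumerable.ofNat (List ℕ) (Encodable.encode ((List.range N).map w')) =
      (List.range N).map w' := fun N => Denumerable.ofNat_encode _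
  have hlen : ∀ N, ((List.range N).map w').length = N := fun N => by simp
  have hu : ∀ N, um_u s (Encodable.encode ((List.range N).map w')) = 0 ↔
      ∃ k < N + 1, um_R s k ((List.range N).map w') := by
    intro N
    rw [um_u_eq, hof, hlen]
  unfold Op
  simp only [hu]
  constructor
  · rintro ⟨N, k, hk, hk2⟩
    exact ⟨k, ((hR N k (by omega)).1 hk2).2⟩
  · rintro ⟨k, hk⟩
    set p := Encodable.encode ((List.range k).map w) with hp
    refine ⟨max k (p + 1), k, by omega, ?_⟩
    rw [hR _ _ (le_max_left _ _)]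
    exact ⟨by omega, hk⟩

/-- UM -/
theorem pf_UM : T_UM := by
  refine ⟨um_u um_A, um_u um_B, um_u_comp um_A_prim, um_u_comp um_B_prim, ?_⟩
  intro a b x y1 y2 y3 y4
  refine ⟨um_key um_A a _ _ (um_g_p5 a b x y1 y2 y3 y4) (um_A_p5 a b x y1 y2 y3 y4),
    um_key um_B b _ _ (um_g_p5 a b x y1 y2 y3 y4) (um_B_p5 a b x y1 y2 y3 y4)⟩

end SE
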