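import Pool.Agent.H9.SE.TarK
import Pool.Agent.H35.SE.AG
import Pool.Agent.H59.SE.AI

/-!
# MP_eaeaf5_lc, module KC: `Π¹₁` statements and trees
-/

set_option linter.unusedVariables false

open Ordinal Order Set
open scoped ZFSet

namespace SE

open SF CAA

namespace H60

variable {f g : (V → Prop) → (ℕ → V) → V}

theorem tm_prs (hf1 : Tm ZFm f) (hg : Tm ZFm g) : Tm ZFm (fun M v => prs (f M v) (g M v)) := by
  refine Tm.at2 (F := fun _ x y => prs x y) ?_ hf1 hg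
  exact (Tm.resS (g := fun _ v => ZFSet.pair (SF.app (v 1) (v 0)) (SF.app (v 2) (v 0)))
    (Tm.dm (Tm.var 1))
    (Tm.pair (Tm.app (Tm.var 1) (Tm.var 0)) (Tm.app (Tm.var 2) (Tm.var 0)))).congr
      fun M k v hv => rfl

theorem tm_TO (hsq : Tm ZFm (fun _ _ => sq)) (hf1 : Tm ZFm f) (hg : Tm ZFm g) :
    Tm ZFm (fun M v => TO (f M v) (g M v)) := by
  refine Tm.at2 (F := fun _ x y => TO x y) ?_ hf1 hg
  refine (Tm.sep (R := fun _ v => ∀ m ∈ insert (dm (v 0)) (dm (v 0)),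
    rs (prs (v 2) (v 0)) m ∉ rg (v 1)) ?_ hsq).congr fun M k v hv => rfl
  exact (Dfb.ball (R := fun _ v => rs (prs (v 3) (v 1)) (v 0) ∉ rg (v 2)) ktr_zfm
    (Tm.ins (Tm.dm (Tm.var 0)) (Tm.dm (Tm.var 0)))
    (Dfb.mem (H59.tm_rs (tm_prs (Tm.var 3) (Tm.var 1)) (Tm.var 0)) (Tm.rg (Tm.var 2))).not).congr
      fun M k v hv => Iff.rfl

theorem tm_EO (hsq : Tm ZFm (fun _ _ => sq)) : Tm ZFm (fun _ _ => EO) :=
  (Tm.sep (R := fun _ v => SF.snd (v 0) ⊆ SF.fst (v 0) ∧ SF.fst (v 0) ≠ SF.snd (v 0))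
    ((Dfb.subset (Tm.snd (Tm.var 0)) (Tm.fst (Tm.var 0))).and
      (Dfb.eq (Tm.fst (Tm.var 0)) (Tm.snd (Tm.var 0))).not)
    (Tm.prod hsq hsq)).congr fun M k v hv => rfl

theorem rs_resS {a n : V} {F : V → V} (h : n ⊆ a) : rs (resS a F) n = resS n F := by
  ext z
  unfold rs
  rw [ZFSet.mem_sep, mem_resS, mem_resS]
  constructor
  · rintro ⟨⟨x, hx, rfl⟩, h2⟩
    rw [fst_pair] at h2
    exact ⟨x, h2, rfl⟩
  · rintro ⟨x, hx, rfl⟩
    refine ⟨⟨x, h hx, rfl⟩, ?_⟩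
    rw [fst_pair]
    exact hx

theorem rs_prl (hAG : T_AG) {x y : V} (hx : Rl x) (hy : Rl y) (n : ℕ) :
    rs (prl x y) (nS n) = prs x (rs y (nS n)) := by
  unfold prl prs
  rw [rs_resS (H35AG.nS_sub n), H35AG.dm_func (H35AG.isFunc_rs hy n)]
  refine resS_congr fun k hk => ?_
  obtain ⟨j, hj, rfl⟩ := H35AG.mem_nS.1 hk
  rw [H35AG.app_rs hy hj]

theorem mem_EO {b c : V} : ZFSet.pair c b ∈ EO ↔ c ∈ sq ∧ b ∈ sq ∧ b ⊆ c ∧ c ≠ b := by
  unfold EO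
  rw [ZFSet.mem_sep, ZFSet.pair_mem_prod, fst_pair, snd_pair]
  tauto

theorem mem_TO {a x b : V} : b ∈ TO a x ↔ b ∈ sq ∧ ∀ m ∈ insert (dm b) (dm b),
    rs (prs x b) m ∉ rg a := by
  unfold TO
  rw [ZFSet.mem_sep]

theorem mem_TO' {a x b : V} {n : ℕ} (hb : Sq n b) : b ∈ TO a x ↔ b ∈ sq ∧ ∀ m ≤ n,
    rs (prs x b) (nS m) ∉ rg a := by
  rw [mem_TO, H35AG.dm_func hb]
  refine and_congr_right fun _ => ?_
  rw [← nS_succ]
  constructor
  · intro h m hm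
    exact h _ (H35AG.nS_mem_nS.2 (by omega))
  · intro h m hm
    obtain ⟨j, hj, rfl⟩ := H35AG.mem_nS.1 hm
    exact h j (by omega)

theorem opn_iff {a x : V} (ha : Rl a) : Opn a x ↔ ∃ m : ℕ, rs x (nS m) ∈ rg a := by
  constructor
  · rintro ⟨n, hn, m, hm, h⟩
    obtain ⟨j, rfl⟩ := mem_om.1 hm
    exact ⟨j, mem_rg.2 ⟨n, h ▸ pair_app_mem ha hn⟩⟩
  · rintro ⟨m, hm⟩
    obtain ⟨n, hn⟩ := mem_rg.1 hm
    obtain ⟨h1, h2⟩ := (pair_mem_iff_app ha).1 hn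
    exact ⟨n, h1, nS m, H35AG.nS_om m, h2.symm⟩

/-- the union of a strictly increasing sequence of finite sequences -/
theorem desc (hAF : T_AF) (hAG : T_AG) {T s : V} (hT : T ⊆ sq) (hs : ZFSet.IsFunc om T s)
    (hd : ∀ n : ℕ, ZFSet.pair (app s (nS (n + 1))) (app s (nS n)) ∈ EO) :
    Rl (⋃₀ (rg s) : ZFSet) ∧ ∀ n : ℕ, ∃ k : ℕ, n ≤ k ∧ Sq k (app s (nS n)) ∧
      app s (nS n) = rs (⋃₀ (rg s) : ZFSet) (nS k) := by
  obtain ⟨F1, -, -, -, F5, -, F7, -, -⟩ := hAF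
  obtain ⟨-, G2, -, -, G5, -⟩ := hAG
  have hsq : ∀ n : ℕ, app s (nS n) ∈ sq := fun n => hT (app_mem hs (H35AG.nS_om n))
  have hk : ∀ n : ℕ, ∃ k, Sq k (app s (nS n)) := fun n => (F1 _).1 (hsq n)
  choose k hk using hk
  have hstep : ∀ n, app s (nS n) ⊆ app s (nS (n + 1)) ∧ k n < k (n + 1) := by
    intro n
    obtain ⟨-, -, h1, h2⟩ := mem_EO.1 (hd n)
    refine ⟨h1, ?_⟩
    have h3 := (F7 _ _ _ _ (hk n) (hk (n + 1))).1 h1
    rcases lt_or_eq_of_le h3.1 with h4 | h4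
    · exact h4
    · exfalso
      apply h2
      have hk' : Sq (k n) (app s (nS (n + 1))) := by rw [h4]; exact hk (n + 1)
      have h5 := (F7 _ _ _ _ hk' (hk n)).2 ⟨le_rfl, fun l hl => (h3.2 l hl).symm⟩
      ext z
      exact ⟨fun hz => h5 hz, fun hz => h1 hz⟩
  have hmono : ∀ m n, m ≤ n → app s (nS m) ⊆ app s (nS n) := by
    intro m n hmn
    induction n, hmn using Nat.le_induction with
    | base => exact fun z hz => hz
    | succ n hmn ih => exact fun z hz => (hstep n).1 (ih hz)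
  have hkn : ∀ n, n ≤ k n := by
    intro n
    induction n with
    | zero => exact Nat.zero_le _
    | succ n ih =>
      have := (hstep n).2
      omega
  have hrg : ∀ b, b ∈ rg s ↔ ∃ n : ℕ, b = app s (nS n) := by
    intro b
    rw [mem_rg]
    constructor
    · rintro ⟨z, hz⟩
      obtain ⟨h1, h2⟩ := (pair_mem_iff_app hs).1 hz
      obtain ⟨n, rfl⟩ := mem_om.1 h1
      exact ⟨n, h2⟩
    · rintro ⟨n, rfl⟩
      exact ⟨nS n, pair_app_mem hs (H35AG.nS_om n)⟩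
  have hU := G5 (rg s) ?_ ?_ ?_
  · refine ⟨hU.1, fun n => ⟨k n, hkn n, hk n, ?_⟩⟩
    exact (G2 _ _ _ hU.1 (hk n)).1 (hU.2 _ ((hrg _).2 ⟨n, rfl⟩))
  · intro b hb
    obtain ⟨n, rfl⟩ := (hrg b).1 hb
    exact hsq n
  · intro b hb c hc
    obtain ⟨n, rfl⟩ := (hrg b).1 hb
    obtain ⟨m, rfl⟩ := (hrg c).1 hc
    rcases le_total n m with h | h
    · exact Or.inl (hmono _ _ h)
    · exact Or.inr (hmono _ _ h)
  · intro n
    exact ⟨k n, app s (nS n), hkn n, hk n, (hrg _).2 ⟨n, rfl⟩⟩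

end H60

open H60 in
theorem t_kc (hAF : T_AF) (hAG : T_AG) (hAH : T_AH) : T_KC := by
  have hsq := hAF.2.2.1
  refine ⟨tm_TO hsq (Tm.var 0) (Tm.var 1), tm_EO hsq, fun x y hx hy n => rs_prl hAG hx hy n, ?_⟩
  intro W hW a x hWa ha hWx hx
  constructor
  · rintro h ⟨s, hWs, hs, hd⟩
    have hT : TO a x ⊆ sq := fun b hb => (mem_TO.1 hb).1
    obtain ⟨hv, hk⟩ := desc hAF hAG hT hs hd
    set v : V := (⋃₀ (rg s) : ZFSet) with hvdef
    have hWv : W v := (Tm.sUnion (Tm.rg (Tm.var 0))).1 W hW (fun _ => s) (fun _ => hWs)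
    obtain ⟨m, hm⟩ := (opn_iff ha).1 (h v hWv hv)
    obtain ⟨k, hmk, hSk, hsk⟩ := hk m
    have hb := app_mem hs (H35AG.nS_om m)
    have h2 := ((mem_TO' hSk).1 hb).2 m hmk
    rw [hsk, ← rs_prl hAG hx hv, H35AG.rs_rs _ hmk] at h2
    exact h2 hm
  · intro h v hWv hv
    by_contra hno
    apply h
    have hno2 : ∀ m : ℕ, rs (prl x v) (nS m) ∉ rg a := by
      intro m hm
      exact hno ((opn_iff ha).2 ⟨m, hm⟩)
    have hsqv : ∀ n : ℕ, rs v (nS n) ∈ sq := fun n => (hAF.1 _).2 ⟨n, H35AG.isFunc_rs hv n⟩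
    refine ⟨resS om fun n => rs v n, ?_, ?_, ?_⟩
    · exact (Tm.resS (g := fun _ v => rs (v 1) (v 0)) Tm.om
        (H59.tm_rs (Tm.var 1) (Tm.var 0))).1 W hW (fun _ => v) (fun _ => hWv)
    · apply isFunc_resS
      intro n hn
      obtain ⟨n, rfl⟩ := mem_om.1 hn
      rw [mem_TO' (H35AG.isFunc_rs hv n)]
      refine ⟨hsqv n, fun m hm => ?_⟩
      rw [← rs_prl hAG hx hv, H35AG.rs_rs _ hm]
      exact hno2 m
    · intro n
      rw [app_resS (H35AG.nS_om _), app_resS (H35AG.nS_om _), mem_EO]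
      refine ⟨hsqv _, hsqv _, ?_, ?_⟩
      · intro z hz
        unfold rs at hz ⊢
        rw [ZFSet.mem_sep] at hz ⊢
        refine ⟨hz.1, ?_⟩
        obtain ⟨j, hj, e⟩ := H35AG.mem_nS.1 hz.2
        rw [e]
        exact H35AG.nS_mem_nS.2 (by omega)
      · intro e
        have h1 := H35AG.dm_func (H35AG.isFunc_rs hv (n + 1))
        have h2 := H35AG.dm_func (H35AG.isFunc_rs hv n)
        rw [e, h2] at h1
        have := nS_inj.1 h1
        omega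

end SE
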